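import Mathlib

set_option autoImplicit false

namespace Pool.Agent.Results.MP_843a88_gt.Yes

open Set Filter Topology MeasureTheory

/-- a Radon Borel probability measure -/
def IsRadonProb {X : Type} [TopologicalSpace X] (μ : @Measure X (borel X)) : Prop :=
  μ univ = 1 ∧ ∀ B, MeasurableSet[borel X] B →
    μ B = ⨆ (K : Set X) (_ : K ⊆ B) (_ : IsCompact K), μ K ∧
    μ B = ⨅ (U : Set X) (_ : B ⊆ U) (_ : IsOpen U), μ U

/-- the support of a measure -/
def supp {X : Type} [TopologicalSpace X] (μ : @Measure X (borel X)) : Set X :=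
  ⋂₀ {C | IsClosed C ∧ μ C = 1}

def AvoidsMeasures {X : Type} [TopologicalSpace X] (x : X) : Prop :=
  ∀ μ : @Measure X (borel X), IsRadonProb μ → μ {x} = 0 → x ∉ supp μ

def CCC (Y : Type) [TopologicalSpace Y] : Prop :=
  ∀ 𝒰 : Set (Set Y), (∀ U ∈ 𝒰, IsOpen U ∧ U.Nonempty) → 𝒰.PairwiseDisjoint id → 𝒰.Countable

def AvoidsCCC {X : Type} [TopologicalSpace X] (x : X) : Prop :=
  ∀ Y : Set X, CCC Y → x ∉ Y → x ∉ closure Y

abbrev L := ℕ → ℕ

def Adm (n : ℕ) (s : Finset L) : Prop := ∀ k, (s.image (· k)).card ≤ n + k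

def Small (τ : ℕ → Finset L) : Prop := ∀ k, ∀ᶠ n in atTop, k * (τ n).card ≤ n

abbrev T := {τ // Small τ}

abbrev I := T ⊕ ℕ

abbrev P := {p : ℕ × Finset L // Adm p.1 p.2}

open Classical in
noncomputable def e (p : P) : I → Bool :=
  Sum.elim (fun τ => decide (τ.1 p.1.1 ⊆ p.1.2)) (fun m => decide (p.1.1 = m))

def x0 : I → Bool := Sum.elim (fun _ => true) (fun _ => false)

lemma small_one (l : ℕ → L) : Small fun n => {l n} := fun k =>
  (eventually_ge_atTop k).mono fun n hn => by simpa using hn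

open Classical in
lemma small_union {σ τ : ℕ → Finset L} (h : Small σ) (h' : Small τ) :
    Small fun n => σ n ∪ τ n := fun k => by
  filter_upwards [h (2 * k), h' (2 * k)] with n a b
  have := Nat.mul_le_mul_left k (Finset.card_union_le (σ n) (τ n))
  nlinarith

lemma small_fin (J : Finset I) : ∃ σ : T, ∀ τ : T, Sum.inl τ ∈ J → ∀ n, τ.1 n ⊆ σ.1 n := by
  classical
  induction J using Finset.induction_on with
  | empty => exact ⟨⟨_, small_one 0⟩, by simp⟩
  | insert i J _ ih =>
    obtain ⟨σ, hσ⟩ := ih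
    rcases i with τ | m
    · refine ⟨⟨_, small_union σ.2 τ.2⟩, fun ρ hρ n => ?_⟩
      rcases Finset.mem_insert.1 hρ with h | h
      · rw [Sum.inl.inj h]; exact Finset.subset_union_right
      · exact (hσ ρ h n).trans Finset.subset_union_left
    · exact ⟨σ, fun ρ hρ => hσ ρ (by simpa using hρ)⟩

lemma diag (J : ℕ → Finset I) :
    ∃ σ : T, ∀ j, ∀ᶠ n in atTop, ∀ τ : T, Sum.inl τ ∈ J j → τ.1 n ⊆ σ.1 n := by
  classical
  choose s hs using fun j => small_fin ((Finset.range (j + 1)).biUnion J)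
  let g : ℕ → ℕ := fun n => Nat.findGreatest (fun j => j * ((s j).1 n).card ≤ n) n
  have h1 : ∀ k, ∀ᶠ n in atTop, k ≤ g n := fun k => by
    filter_upwards [(s k).2 k, eventually_ge_atTop k] with n a b
    exact Nat.le_findGreatest (P := fun j => j * ((s j).1 n).card ≤ n) b a
  have h2 : ∀ n, g n * ((s (g n)).1 n).card ≤ n := fun n =>
    Nat.findGreatest_spec (P := fun j => j * ((s j).1 n).card ≤ n) (Nat.zero_le n) (by simp)
  refine ⟨⟨fun n => (s (g n)).1 n, fun k => (h1 k).mono fun n hn =>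
    (Nat.mul_le_mul_right _ hn).trans (h2 n)⟩, fun j => (h1 j).mono fun n hn τ hτ => ?_⟩
  exact hs _ τ (Finset.mem_biUnion.2 ⟨j, Finset.mem_range.2 (by omega), hτ⟩) n

lemma nhd (z : I → Bool) (J : Finset I) : {w : I → Bool | ∀ i ∈ J, w i = z i} ∈ 𝓝 z := by
  have := set_pi_mem_nhds (x := z) (s := fun i => {z i}) J.finite_toSet
    (fun i _ => (isOpen_discrete _).mem_nhds rfl)
  exact mem_of_superset this fun w hw i hi => hw i hi

lemma base {z : I → Bool} {U : Set (I → Bool)} (h : U ∈ 𝓝 z) :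
    ∃ J : Finset I, ∀ w : I → Bool, (∀ i ∈ J, w i = z i) → w ∈ U := by
  rw [nhds_pi, Filter.mem_pi'] at h
  obtain ⟨J, t, ht, hU⟩ := h
  exact ⟨J, fun w hw => hU fun i hi => by rw [hw i hi]; exact mem_of_mem_nhds (ht i)⟩

abbrev X := closure (range e)

lemma near (z : X) (J : Finset I) : ∃ p, ∀ i ∈ J, e p i = z.1 i := by
  obtain ⟨_, h, p, rfl⟩ := mem_closure_iff_nhds.1 z.2 _ (nhd z.1 J)
  exact ⟨p, h⟩

lemma x0_mem : x0 ∈ closure (range e) := by
  refine mem_closure_iff_nhds.2 fun U hU => ?_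
  obtain ⟨J, hJ⟩ := base hU
  obtain ⟨σ, hσ⟩ := small_fin J
  obtain ⟨n, a, b⟩ := ((σ.2 1).and (eventually_gt_atTop (J.sup (Sum.elim 0 id)))).exists
  refine ⟨e ⟨(n, σ.1 n), fun k => Finset.card_image_le.trans (by simp at a ⊢; omega)⟩,
    hJ _ ?_, mem_range_self _⟩
  rintro (τ | m) hi
  · simpa [e, x0] using hσ τ hi n
  · have := Finset.le_sup (f := Sum.elim (0 : T → ℕ) id) hi
    simp [e, x0] at this ⊢; omega

def c (l : L) : I := Sum.inl ⟨fun _ => {l}, small_one fun _ => l⟩

def B (n : ℕ) (l : L) : Set X := {z | z.1 (Sum.inr n) = true ∧ z.1 (c l) = true}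

lemma isOpen_coord (i : I) : IsOpen {z : X | z.1 i = true} :=
  (isOpen_discrete {true}).preimage (f := fun z : X => z.1 i)
    ((continuous_apply i).comp continuous_subtype_val)

lemma null (μ : @Measure X (borel X)) (h1 : μ univ = 1) (n : ℕ) : ∃ l, μ (B n l) = 0 := by
  classical
  let _ := borel X
  have : BorelSpace X := ⟨rfl⟩
  have hm : ∀ l, MeasurableSet (B n l) := fun l =>
    ((isOpen_coord _).inter (isOpen_coord _)).measurableSet
  have hfin : ∀ k : ℕ, ((fun t : L => t k) '' {t | ((k : ENNReal))⁻¹ < μ (B n t)}).Finite := by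
    intro k
    by_contra hinf
    obtain ⟨V, hV, hc⟩ := Set.Infinite.exists_subset_card_eq hinf ((n + k) * k + 1)
    obtain ⟨G, hG1, hG2, hG3⟩ := Finset.exists_subset_injOn_image_eq_of_surjOn
      {t : L | ((k : ENNReal))⁻¹ < μ (B n t)} V (f := fun t : L => t k) hV
    have hc' : G.card = (n + k) * k + 1 := by
      rw [← hc, ← hG3, Finset.card_image_of_injOn hG2]
    have hp : ∀ z : X, ∑ l ∈ G, (B n l).indicator (1 : X → ENNReal) z ≤ (n + k : ℕ) := by
      intro z
      simp only [indicator_apply, Pi.one_apply, Finset.sum_boole, Nat.cast_le]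
      by_cases hz : z.1 (Sum.inr n) = true
      · obtain ⟨p, hp⟩ := near z (insert (Sum.inr n) (G.image c))
        have a : p.1.1 = n := by simpa [e, hz] using hp _ (Finset.mem_insert_self _ _)
        rw [← Finset.card_image_of_injOn (hG2.mono (Finset.coe_subset.2 (Finset.filter_subset _ _))),
          ← a]
        refine (Finset.card_le_card (Finset.image_subset_image fun l hl => ?_)).trans (p.2 k)
        obtain ⟨b, -, d⟩ := Finset.mem_filter.1 hl
        have := hp _ (Finset.mem_insert_of_mem (Finset.mem_image_of_mem _ b))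
        rw [d] at this
        simpa [e, c] using this
      · rw [Finset.filter_false_of_mem fun l _ h => hz h.1]; simp
    have h2 : ∑ l ∈ G, μ (B n l) ≤ (n + k : ℕ) := by
      calc _ = ∫⁻ z, ∑ l ∈ G, (B n l).indicator (1 : X → ENNReal) z ∂μ := by
            rw [lintegral_finsetSum _ fun l _ => measurable_one.indicator (hm l)]
            simp [lintegral_indicator_one (hm _)]
        _ ≤ ∫⁻ _, ((n + k : ℕ) : ENNReal) ∂μ := lintegral_mono hp
        _ = _ := by simp [h1]
    have h3 := (Finset.card_nsmul_le_sum G (fun t => μ (B n t)) ((k : ENNReal))⁻¹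
      (fun t ht => le_of_lt (hG1 ht))).trans h2
    rw [hc', nsmul_eq_mul, ← div_eq_mul_inv,
      ENNReal.div_le_iff_le_mul (Or.inr (by simp)) (Or.inl (by simp))] at h3
    norm_cast at h3
    omega
  choose t ht using fun k => (hfin k).exists_notMem
  refine ⟨t, by_contra fun h => ?_⟩
  obtain ⟨k, hk⟩ := ENNReal.exists_inv_nat_lt h
  exact ht k ⟨t, hk, rfl⟩

theorem result : ∃ (X : Type) (_ : TopologicalSpace X) (_ : CompactSpace X) (_ : T2Space X)
    (x : X), AvoidsMeasures x ∧ ¬ AvoidsCCC x := by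
  classical
  refine ⟨X, inferInstance, isCompact_iff_compactSpace.1 isClosed_closure.isCompact,
    inferInstance, ⟨x0, x0_mem⟩, fun μ ⟨h1, hμ⟩ h0 hx => ?_, fun h => ?_⟩
  · let _ := borel X
    have : BorelSpace X := ⟨rfl⟩
    choose l hl using null μ h1
    have : ∀ j : ℕ, ∃ J : Finset I,
        μ {w : X | ∀ i ∈ J, w.1 i = x0 i} < ((j : ENNReal))⁻¹ := fun j => by
      have := (hμ _ (measurableSet_singleton (⟨x0, x0_mem⟩ : X))).2
      have a : μ {(⟨x0, x0_mem⟩ : X)} < ((j : ENNReal))⁻¹ := by rw [h0]; simp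
      rw [this] at a
      simp only [iInf_lt_iff] at a
      obtain ⟨U, a, b, d⟩ := a
      obtain ⟨V, hV, hU⟩ := (mem_nhds_subtype _ _ _).1 (b.mem_nhds (a rfl))
      obtain ⟨J, hJ⟩ := base hV
      exact ⟨J, (measure_mono fun w hw => hU (hJ _ hw)).trans_lt d⟩
    choose J hJ using this
    obtain ⟨σ, hσ⟩ := diag J
    let τ : T := ⟨_, small_union σ.2 (small_one l)⟩
    have hV : μ {z : X | z.1 (Sum.inl τ) = true} = 0 := by
      by_contra h
      obtain ⟨j, hj⟩ := ENNReal.exists_inv_nat_lt h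
      obtain ⟨N, hN⟩ := eventually_atTop.1
        ((hσ j).and (eventually_gt_atTop ((J j).sup (Sum.elim 0 id))))
      have : {z : X | z.1 (Sum.inl τ) = true} ⊆
          {w : X | ∀ i ∈ J j, w.1 i = x0 i} ∪ ⋃ n, B n (l n) := by
        intro z hz
        obtain ⟨p, hp⟩ := near z (insert (Sum.inl τ) (J j ∪ (Finset.range N).biUnion
          fun m => {Sum.inr m, c (l m)}))
        have a := hp _ (Finset.mem_insert_self _ _)
        rw [hz] at a
        simp only [e, Sum.elim_inl, decide_eq_true_eq, τ, Finset.union_subset_iff] at a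
        by_cases hn : p.1.1 < N
        · refine Or.inr (mem_iUnion.2 ⟨p.1.1, ?_, ?_⟩) <;>
            rw [← hp _ (Finset.mem_insert_of_mem (Finset.mem_union_right _
              (Finset.mem_biUnion.2 ⟨_, Finset.mem_range.2 hn, by simp⟩)))]
          · simp [e]
          · simpa [e, c] using a.2
        · obtain ⟨b, d⟩ := hN _ (not_lt.1 hn)
          refine Or.inl fun i hi => ?_
          rw [← hp _ (Finset.mem_insert_of_mem (Finset.mem_union_left _ hi))]
          rcases i with ρ | m
          · simpa [e, x0] using (b ρ hi).trans a.1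
          · have := Finset.le_sup (f := Sum.elim (0 : T → ℕ) id) hi
            simp [e, x0] at this ⊢; omega
      have := (measure_mono this).trans (measure_union_le (μ := μ) _ _)
      rw [measure_iUnion_null hl, add_zero] at this
      exact absurd ((hj.trans_le this).trans (hJ j)) (lt_irrefl _)
    refine hx {z : X | z.1 (Sum.inl τ) = true}ᶜ ⟨(isOpen_coord _).isClosed_compl, ?_⟩ rfl
    rw [measure_compl (isOpen_coord _).measurableSet (by simp [hV]), hV, h1, tsub_zero]
  · refine h {z | z.1 ∈ range e} (fun 𝒰 h1 h2 => ?_) ?_ ?_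
    · have : ∀ U : Set {z : X | z.1 ∈ range e}, ∃ (p : P) (D : ℕ), U ∈ 𝒰 → 2 * p.1.2.card ≤ D ∧
          ∀ q : P, q.1.1 = p.1.1 → p.1.2 ⊆ q.1.2 →
            (∀ l ∈ q.1.2, ∃ l' ∈ p.1.2, ∀ k < D, l k = l' k) →
            ⟨⟨e q, subset_closure (mem_range_self q)⟩, mem_range_self q⟩ ∈ U := by
        intro U
        by_cases hU : U ∈ 𝒰
        swap
        · exact ⟨⟨(0, ∅), fun k => by simp⟩, 0, fun h => absurd h hU⟩
        obtain ⟨a, ⟨⟨y, hy⟩, p, hp⟩, b⟩ := h1 U hU
        obtain rfl : e p = y := hp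
        obtain ⟨V, hV, hVU⟩ := (mem_nhds_subtype _ _ _).1 (a.mem_nhds b)
        obtain ⟨W, hW, hWV⟩ := (mem_nhds_subtype _ _ _).1 hV
        obtain ⟨J, hJ⟩ := base hW
        obtain ⟨σ, hσ⟩ := small_fin J
        have : ∀ᶠ D in atTop, ∀ l ∈ σ.1 p.1.1, ∀ l' ∈ p.1.2, (∀ k < D, l k = l' k) → l = l' := by
          simp only [eventually_all_finset]
          intro l _ l' _
          by_cases hl : l = l'
          · simp [hl]
          · obtain ⟨k, hk⟩ := Function.ne_iff.1 hl
            exact (eventually_gt_atTop k).mono fun D hD h => absurd (h k hD) hk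
        obtain ⟨D, d1, d2⟩ := (this.and (eventually_ge_atTop (2 * p.1.2.card))).exists
        refine ⟨p, D, fun _ => ⟨d2, fun q q1 q2 q3 => hVU (hWV (hJ _ ?_))⟩⟩
        rintro (ρ | m) hi
        · simp only [e, Sum.elim_inl, q1, decide_eq_decide]
          refine ⟨fun h l hl => ?_, fun h => h.trans q2⟩
          obtain ⟨l', a, b⟩ := q3 l (h hl)
          rwa [d1 l (hσ ρ hi _ hl) l' a b]
        · simp [e, q1]
      choose p D hp using this
      refine countable_of_injective_of_countable_image (f := fun U => ((p U).1.1, D U,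
        (p U).1.2.image fun l => (List.range (D U)).map l)) ?_ (to_countable _)
      intro U hU V hV h
      by_contra hne
      simp only [Prod.mk.injEq] at h
      obtain ⟨h3, h4, h5⟩ := h
      obtain ⟨a1, a2⟩ := hp U hU
      obtain ⟨b1, b2⟩ := hp V hV
      rw [h4] at h5 a1 a2
      have k1 : ∀ s t : Finset L, (s.image fun l => (List.range (D V)).map l) =
          (t.image fun l => (List.range (D V)).map l) →
          ∀ l ∈ s ∪ t, ∃ l' ∈ s, ∀ k < D V, l k = l' k := by
        intro s t h l hl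
        rcases Finset.mem_union.1 hl with hl | hl
        · exact ⟨l, hl, fun _ _ => rfl⟩
        · obtain ⟨l', a, b⟩ := Finset.mem_image.1 (h ▸ Finset.mem_image_of_mem _ hl)
          exact ⟨l', a, fun k hk => (List.map_inj_left.1 b k (List.mem_range.2 hk)).symm⟩
      have k2 : Adm (p U).1.1 ((p U).1.2 ∪ (p V).1.2) := fun k => by
        by_cases hk : k < D V
        · refine (Finset.card_le_card fun m hm => ?_).trans ((p U).2 k)
          obtain ⟨l, a, rfl⟩ := Finset.mem_image.1 hm
          obtain ⟨l', b, d⟩ := k1 _ _ h5 l a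
          exact Finset.mem_image.2 ⟨l', b, (d k hk).symm⟩
        · have := Finset.card_union_le (p U).1.2 (p V).1.2
          have := Finset.card_image_le (s := (p U).1.2 ∪ (p V).1.2) (f := (· k))
          omega
      exact Set.disjoint_left.1 (h2 hU hV hne)
        (a2 ⟨(_, _), k2⟩ rfl Finset.subset_union_left (k1 _ _ h5))
        (b2 ⟨(_, _), k2⟩ h3 Finset.subset_union_right
          fun l hl => k1 _ _ h5.symm l (by rwa [Finset.union_comm]))
    · rintro ⟨p, hp⟩
      simpa [e, x0] using congrFun hp (Sum.inr p.1.1)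
    · rw [closure_subtype]
      refine closure_mono ?_ x0_mem
      rintro _ ⟨p, rfl⟩
      exact ⟨⟨e p, subset_closure (mem_range_self p)⟩, mem_range_self p, rfl⟩

end Pool.Agent.Results.MP_843a88_gt.Yes
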